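import Pool.Agent.H223.PG.Man
import Pool.Agent.H223.PG.Pinch

set_option autoImplicit false

open scoped Manifold ContDiff Topology
open Set Filter

namespace Pool.Agent.Results.MP_610fe3_an.BoundedBrackets

open Pool.Agent.H721R2 Pool.Agent.H789R2.AN Pool.Agent.H223.CE Pool.Agent.H223.PG

/-- **Transitivity of Anosov diffeomorphisms, brackets in the covering space, and pinched
large-scale contraction rates.**
Let `f` be a `C¹` Anosov diffeomorphism of a closed connected manifold `M`.  Let `P : X → M` be a
connected Galois covering with deck group `Γ` (for instance the universal covering), with a proper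
metric on `X` that is invariant under `Γ` (for instance the lifted Riemannian distance), and let
`F` be a lift of `f` to `X`.  Nothing is assumed on the fundamental group, on `f_*` or on the
dimensions.

(A) The following are equivalent.
* `f` is topologically transitive, and each stable leaf and each unstable leaf of `X` have exactly
  one common point.
* Each stable leaf and each unstable leaf of `X` have exactly one common point (global product
  structure).
* A stable leaf and an unstable leaf of `X` have at most one common point, and the brackets are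
  bounded (`BoundedBrackets`): for every `c` there is `D` such that `d(x, w) ≤ D` if `d(x, y) ≤ c`
  and `w` is a common point of the stable leaf of `x` and the unstable leaf of `y`.

(B) Suppose that a stable leaf and an unstable leaf of `X` have at most one common point and that
`F` or `F⁻¹` is pinched at large scale (`Pinched`): there are `μ, ν, Λ, Λ' > 1` and constants `C`
with
* `d(F⁻ⁿ x, F⁻ⁿ y) ≤ C` for `x`, `y` on the same unstable leaf and `μⁿ ≥ C (1 + d(x, y))`,
* `d(Fⁿ x, Fⁿ y) ≤ C` for `x`, `y` on the same stable leaf and `νⁿ ≥ C (1 + d(x, y))`,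
* `d(Fⁿ x, Fⁿ y) ≤ C Λⁿ (1 + d(x, y))` and `d(F⁻ⁿ x, F⁻ⁿ y) ≤ C Λ'ⁿ (1 + d(x, y))` for all `x`, `y`,
* `log Λ / log μ < 1 + log ν / log Λ' + log ν / log Λ`.

Then `f` is topologically transitive, each stable leaf of `X` meets each unstable leaf in exactly
one point, and `M` is covered by Euclidean space. -/
theorem result (E : Type*) [NormedAddCommGroup E] [NormedSpace ℝ E] [FiniteDimensional ℝ E]
    (M : Type*) [TopologicalSpace M] [T2Space M] [CompactSpace M] [ConnectedSpace M]
    [ChartedSpace E M] [IsManifold 𝓘(ℝ, E) ∞ M] (f : Diffeomorph 𝓘(ℝ, E) 𝓘(ℝ, E) M M 1)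
    (Es Eu : ∀ x : M, Submodule ℝ (TangentSpace 𝓘(ℝ, E) x)) (hA : IsAnosov f Es Eu)
    (X : Type*) [MetricSpace X] [ProperSpace X] [ConnectedSpace X]
    (Γ : Type*) [Group Γ] [MulAction Γ X] [IsIsometricSMul Γ X]
    (P : X → M) (hP : IsCoveringMap P) (hsurj : Function.Surjective P)
    (hΓ : ∀ x y : X, P x = P y ↔ ∃ γ : Γ, γ • x = y)
    (F : X ≃ₜ X) (hF : ∀ x, P (F x) = f (P x)) :
    List.TFAE [
      TopTransitive f ∧ ∀ x y : X, ∃! w, Asymp F x w ∧ Asymp F.symm y w,
      ∀ x y : X, ∃! w, Asymp F x w ∧ Asymp F.symm y w,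
      (∀ x y : X, Asymp F x y → Asymp F.symm x y → x = y) ∧ BoundedBrackets F] ∧
    ((∀ x y : X, Asymp F x y → Asymp F.symm x y → x = y) → Pinched F ∨ Pinched F.symm →
      TopTransitive f ∧ (∀ x y : X, ∃! w, Asymp F x w ∧ Asymp F.symm y w) ∧
        ∃ π : E → M, IsCoveringMap π ∧ Function.Surjective π) := by
  have key := man_bb f Es Eu hA P hP hsurj hΓ F hF
  constructor
  · tfae_have 1 → 2 := fun h => h.2
    tfae_have 2 → 3 := by
      intro h
      refine ⟨fun x y h1 h2 => ?_, (key.2 h).1⟩
      obtain ⟨w, -, hw⟩ := h x x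
      rw [hw x ⟨As.refl _ _, As.refl _ _⟩, hw y ⟨h1, h2⟩]
    tfae_have 3 → 1 := fun h => key.1 h.1 h.2
    tfae_finish
  · intro hU hpin
    have h1 := key.1 hU (bounded_of_pinched hpin)
    exact ⟨h1.1, h1.2, (Pool.Agent.TH289.K.man_self f Es Eu hA
      (man_gps f Es Eu hA P hP hsurj hΓ F hF h1.2)).2⟩

end Pool.Agent.Results.MP_610fe3_an.BoundedBrackets
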