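import Pool.Agent.H223.CL.Man

set_option autoImplicit false

open scoped Manifold ContDiff Topology
open Set Filter

namespace Pool.Agent.Results.MP_610fe3_an.ClosedLeaves

open Pool.Agent.H721R2 Pool.Agent.H789R2.AN Pool.Agent.H223.CE Pool.Agent.H223.PG

/-- **Transitivity of Anosov diffeomorphisms whose lifted stable or unstable leaves are closed.**
Let `f` be a `C¹` Anosov diffeomorphism of a closed connected manifold `M`.  Let `P : X → M` be a
connected Galois covering with deck group `Γ` (for instance the universal covering), with a proper
metric on `X` that is invariant under `Γ` (for instance the lifted Riemannian distance), and let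
`F` be a lift of `f` to `X`.  Two points of `X` are on the same stable leaf if they are forward
asymptotic (`Asymp F`), and on the same unstable leaf if they are backward asymptotic.
The brackets are bounded (`BoundedBrackets`) if for every `c` there is `D` such that
`d(x, w) ≤ D` if `d(x, y) ≤ c` and `w` is a common point of the stable leaf of `x` and the unstable
leaf of `y`.

(A) The following are equivalent.
* `f` is topologically transitive, and each stable leaf and each unstable leaf of `X` have exactly
  one common point.
* The brackets are bounded and each unstable leaf is a closed subset of `X`.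
* The brackets are bounded and each stable leaf is a closed subset of `X`.
* The brackets are bounded and each stable leaf meets each unstable leaf in finitely many points.

(B) Suppose that `F` is coarsely hyperbolic (for some `N ≥ 1` and `R`,
`max (d(Fᴺx, Fᴺy), d(F⁻ᴺx, F⁻ᴺy)) ≥ 2 d(x, y)` if `d(x, y) ≥ R`), or coarsely dominated, or that `F`
or `F⁻¹` is pinched at large scale, and that all unstable leaves of `X` are closed, or all stable
leaves of `X` are closed, or each stable leaf of `X` meets each unstable leaf of `X` in finitely many
points.  Then `f` is topologically transitive, each stable leaf of `X` meets each unstable leaf in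
exactly one point, and `M` is covered by Euclidean space.

It is not assumed that a stable and an unstable leaf meet at most once, and there is no hypothesis
on fixed points, on the fundamental group or on the dimensions. -/
theorem result (E : Type*) [NormedAddCommGroup E] [NormedSpace ℝ E] [FiniteDimensional ℝ E]
    (M : Type*) [TopologicalSpace M] [T2Space M] [CompactSpace M] [ConnectedSpace M]
    [ChartedSpace E M] [IsManifold 𝓘(ℝ, E) ∞ M] (f : Diffeomorph 𝓘(ℝ, E) 𝓘(ℝ, E) M M 1)
    (Es Eu : ∀ x : M, Submodule ℝ (TangentSpace 𝓘(ℝ, E) x)) (hA : IsAnosov f Es Eu)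
    (X : Type*) [MetricSpace X] [ProperSpace X] [ConnectedSpace X]
    (Γ : Type*) [Group Γ] [MulAction Γ X] [IsIsometricSMul Γ X]
    (P : X → M) (hP : IsCoveringMap P) (hsurj : Function.Surjective P)
    (hΓ : ∀ x y : X, P x = P y ↔ ∃ γ : Γ, γ • x = y)
    (F : X ≃ₜ X) (hF : ∀ x, P (F x) = f (P x)) :
    List.TFAE [
      TopTransitive f ∧ ∀ x y : X, ∃! w, Asymp F x w ∧ Asymp F.symm y w,
      BoundedBrackets F ∧ ∀ x : X, IsClosed {y | Asymp F.symm x y},
      BoundedBrackets F ∧ ∀ x : X, IsClosed {y | Asymp F x y},
      BoundedBrackets F ∧ ∀ x y : X, {w | Asymp F x w ∧ Asymp F.symm y w}.Finite] ∧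
    ((CoarselyHyperbolic F ∨ CoarselyDominated F ∨ Pinched F ∨ Pinched F.symm) →
      ((∀ x : X, IsClosed {y | Asymp F.symm x y}) ∨ (∀ x : X, IsClosed {y | Asymp F x y}) ∨
        ∀ x y : X, {w | Asymp F x w ∧ Asymp F.symm y w}.Finite) →
      TopTransitive f ∧ (∀ x y : X, ∃! w, Asymp F x w ∧ Asymp F.symm y w) ∧
        ∃ π : E → M, IsCoveringMap π ∧ Function.Surjective π) := by
  have hT := Pool.Agent.H223.CL.man_cl f Es Eu hA P hP hsurj hΓ F hF
  refine ⟨hT, fun hD hcl => ?_⟩
  have hbb : BoundedBrackets F := by
    have hdom := (Pool.Agent.H223.CL.man_uniq f Es Eu hA P hP hsurj hΓ F hF).2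
    rcases hD with h | h | h
    · exact hdom (dominated_of_ch F h)
    · exact hdom h
    · exact bounded_of_pinched h
  have h1 : TopTransitive f ∧ ∀ x y : X, ∃! w, Asymp F x w ∧ Asymp F.symm y w := by
    rcases hcl with h | h | h
    · exact (hT.out 1 0).mp (And.intro hbb h)
    · exact (hT.out 2 0).mp (And.intro hbb h)
    · exact (hT.out 3 0).mp (And.intro hbb h)
  exact ⟨h1.1, h1.2, (Pool.Agent.TH289.K.man_self f Es Eu hA
    (man_gps f Es Eu hA P hP hsurj hΓ F hF h1.2)).2⟩

end Pool.Agent.Results.MP_610fe3_an.ClosedLeaves
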