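import Pool.Agent.H223.CE.Fin

set_option autoImplicit false

open scoped Manifold ContDiff Topology
open Set Filter

namespace Pool.Agent.Results.MP_610fe3_an.NielsenDichotomy

open Pool.Agent.H721R2 Pool.Agent.H789R2.AN Pool.Agent.H223.CE

/-- **Transitivity of Anosov diffeomorphisms and the fixed points of their lifts.**
Let `f` be a `C¹` Anosov diffeomorphism of a closed connected manifold `M`.  Let `P : X → M` be a
connected Galois covering with deck group `Γ` (for instance the universal covering), with a proper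
metric on `X` that is invariant under `Γ` (for instance the lifted Riemannian distance), and let
`F` be a lift of `f` to `X`.  Suppose that `F` is coarsely hyperbolic: for some `N ≥ 1` and `R`,
`max (d(Fᴺx, Fᴺy), d(F⁻ᴺx, F⁻ᴺy)) ≥ 2 d(x, y)` if `d(x, y) ≥ R` (for the universal covering this
only depends on `f_*`, and says that `f_*` is a hyperbolic automorphism of the fundamental group in
the large-scale sense of Bestvina and Feighn); or, more generally, that `F` is coarsely dominated:
for some `n ≥ 1`, `0 ≤ κs < κu` and `C`, `d(Fⁿx, Fⁿy) ≥ κu d(x, y) - C` for `x`, `y` on the same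
unstable leaf of `X` and `d(Fⁿx, Fⁿy) ≤ κs d(x, y) + C` for `x`, `y` on the same stable leaf of `X`.
Nothing is assumed on the fundamental group or on the dimensions.  Then the following are
equivalent.
* `f` is topologically transitive, and each stable leaf and each unstable leaf of `X` have exactly
  one common point (global product structure).
* A stable leaf and an unstable leaf of `X` have at most one common point.
* Two points of `X` whose full orbits under `F` stay at a bounded distance are equal.
* Each lift of each iterate `fⁿ`, `n ≥ 1`, to `X` has at most one fixed point.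
* For each lift `φ` of each iterate `fⁿ`, `n ≥ 1`, to `X` there is a `K ≥ 1` such that `φᴷ` has
  fewer than `2ᴷ` fixed points.

(So if `f` is not transitive, then some lift `φ` of some iterate satisfies `#Fix(φᴷ) ≥ 2ᴷ` for all
`K ≥ 1`.) -/
theorem result (E : Type*) [NormedAddCommGroup E] [NormedSpace ℝ E] [FiniteDimensional ℝ E]
    (M : Type*) [TopologicalSpace M] [T2Space M] [CompactSpace M] [ConnectedSpace M]
    [ChartedSpace E M] [IsManifold 𝓘(ℝ, E) ∞ M] (f : Diffeomorph 𝓘(ℝ, E) 𝓘(ℝ, E) M M 1)
    (Es Eu : ∀ x : M, Submodule ℝ (TangentSpace 𝓘(ℝ, E) x)) (hA : IsAnosov f Es Eu)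
    (X : Type*) [MetricSpace X] [ProperSpace X] [ConnectedSpace X]
    (Γ : Type*) [Group Γ] [MulAction Γ X] [IsIsometricSMul Γ X]
    (P : X → M) (hP : IsCoveringMap P) (hsurj : Function.Surjective P)
    (hΓ : ∀ x y : X, P x = P y ↔ ∃ γ : Γ, γ • x = y)
    (F : X ≃ₜ X) (hF : ∀ x, P (F x) = f (P x))
    (hexp : CoarselyHyperbolic F ∨ CoarselyDominated F) :
    List.TFAE [
      TopTransitive f ∧ ∀ x y : X, ∃! w, Asymp F x w ∧ Asymp F.symm y w,
      ∀ x y : X, Asymp F x y → Asymp F.symm x y → x = y,
      ∀ (x y : X) (B : ℝ), (∀ n : ℕ, dist (F^[n] x) (F^[n] y) ≤ B) →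
        (∀ n : ℕ, dist (F.symm^[n] x) (F.symm^[n] y) ≤ B) → x = y,
      ∀ n : ℕ, 1 ≤ n → ∀ (γ : Γ) (x y : X), F^[n] x = γ • x → F^[n] y = γ • y → x = y,
      ∀ n : ℕ, 1 ≤ n → ∀ γ : Γ, ∃ K : ℕ, 1 ≤ K ∧
        {x : X | (fun x => γ⁻¹ • F^[n] x)^[K] x = x}.encard < 2 ^ K] :=
  man_tfae f Es Eu hA P hP hsurj hΓ F hF hexp

end Pool.Agent.Results.MP_610fe3_an.NielsenDichotomy
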