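import Pool.Agent.Helper905_AJ.Dual

set_option autoImplicit false

open scoped Manifold ContDiff Topology
open Set Filter MeasureTheory

namespace Pool.Agent.Results.MP_610fe3_an.PeriodicJacobians

open Pool.Agent.H721R2 Pool.Agent.H789R2.AN Pool.Agent.Helper905_AJ

/-- **Anosov diffeomorphisms with an attractor in which no periodic orbit contracts the volume.**

Let `f` be a `C¹` Anosov diffeomorphism of a closed connected smooth manifold `M`.  There is a
constant `κ > 0`, depending on `f` only, such that the following holds for every finite Borel measure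
`ν` on `M` that is positive on nonempty open sets and every function `φ : M → ℝ` with modulus of
continuity `κ / |log t|` in the charts of `M` (`LogMod E κ φ`; every locally Hölder function has this
property, see `IsHolder.logMod`, but `φ` need not be Dini continuous).

(1) Suppose that `ν (f B) ≥ ∫_B exp φ dν` for all Borel sets `B` (`Expands f φ ν`); for instance `ν`
is the volume of a Riemannian metric and `φ = log |det Df|`, nothing more than continuity being
assumed on `Df` itself.  Let `A` be a nonempty closed subset of `M` with `f(A) = A` that contains the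
unstable leaf of each of its points (`UnstableSaturated`), for instance a hyperbolic attractor of
`f`.  If `φ(p) + φ(f p) + ... + φ(fⁿ⁻¹ p) ≥ 0` for all `n ≥ 1` and all `p ∈ A` with `fⁿ p = p`, that
is, if no periodic orbit in `A` contracts `ν`, then `A = M` and `f` is topologically transitive.  If
moreover `φ` is locally Hölder, then these sums vanish at all periodic points of `f` (none expands
`ν` either) and `f` preserves a measure `μ` with `e^{-K} ν ≤ μ ≤ ν` for some real number `K`.

(2) Dually, suppose that `ν (f B) = ∫_B exp φ dν` for all Borel sets `B`, and let `A` be a nonempty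
closed subset of `M` with `f(A) = A` that contains the stable leaf of each of its points.  If no
periodic orbit in `A` expands `ν`, then `A = M` and `f` is topologically transitive.

(3) For each point `x₀` the closure of the union of the unstable leaves through the points of the
orbit of `x₀` is a set `A` as in (1).

So, if `f` is not transitive and its Jacobian has the above modulus of continuity, every proper
attractor of `f` contains a periodic point at which the volume is contracted and every proper
repeller contains one at which it is expanded.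

(For `f` of class `C²` and the volume this is `Pool.Agent.Y321.PJ.main`, the lemma behind
`MP_5c499f_an.PeriodicDistortionToral`.  Here the distortion of the Birkhoff sums of `φ` along nearby
orbit segments of length `n` is not bounded, only `O(log n)` with a small constant.) -/
theorem result (E : Type*) [NormedAddCommGroup E] [NormedSpace ℝ E] [FiniteDimensional ℝ E]
    (M : Type*) [TopologicalSpace M] [T2Space M] [CompactSpace M] [ConnectedSpace M]
    [ChartedSpace E M] [IsManifold 𝓘(ℝ, E) ∞ M] (f : Diffeomorph 𝓘(ℝ, E) 𝓘(ℝ, E) M M 1)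
    (Es Eu : ∀ x : M, Submodule ℝ (TangentSpace 𝓘(ℝ, E) x)) (hf : IsAnosov f Es Eu)
    [MeasurableSpace M] [BorelSpace M] :
    (∃ κ > 0, ∀ φ : M → ℝ, LogMod E κ φ →
      ∀ (ν : Measure M) [IsFiniteMeasure ν] [ν.IsOpenPosMeasure],
      (Expands f φ ν → ∀ A : Set M, UnstableSaturated f.toHomeomorph A →
        (∀ p ∈ A, ∀ n : ℕ, 1 ≤ n → f^[n] p = p → 0 ≤ ∑ i ∈ Finset.range n, φ (f^[i] p)) →
        A = univ ∧ TopTransitive f ∧
          (IsHolder E φ →
            (∀ (p : M) (n : ℕ), f^[n] p = p → ∑ i ∈ Finset.range n, φ (f^[i] p) = 0) ∧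
            ∃ μ : Measure M, MeasurePreserving f μ μ ∧
              ∃ K : ℝ, ENNReal.ofReal (Real.exp (-K)) • ν ≤ μ ∧ μ ≤ ν)) ∧
      ((∀ B : Set M, MeasurableSet B →
          ∫⁻ x in B, ENNReal.ofReal (Real.exp (φ x)) ∂ν = ν (f '' B)) →
        ∀ A : Set M, UnstableSaturated f.toHomeomorph.symm A →
        (∀ p ∈ A, ∀ n : ℕ, 1 ≤ n → f^[n] p = p → ∑ i ∈ Finset.range n, φ (f^[i] p) ≤ 0) →
        A = univ ∧ TopTransitive f)) ∧
    ∀ x₀ : M, UnstableSaturated f.toHomeomorph (closure {y | ∃ x : M,
      (∃ k : ℕ, x = f^[k] x₀ ∨ f^[k] x = x₀) ∧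
      Tendsto (fun n : ℕ => (f.symm^[n] x, f.symm^[n] y)) atTop (𝓝ˢ (diagonal M))}) := by
  refine ⟨?_, fun x₀ => man_leaf f Es Eu hf x₀⟩
  obtain ⟨κ₁, hκ₁, h1⟩ := man_main f Es Eu hf
  obtain ⟨κ₂, hκ₂, h2⟩ := man_dual f Es Eu hf
  have hmono : ∀ {κ κ' : ℝ} {φ : M → ℝ}, κ ≤ κ' → LogMod E κ φ → LogMod E κ' φ := by
    intro κ κ' φ hκ h x₀
    obtain ⟨U, hU, h⟩ := h x₀
    exact ⟨U, hU, fun x hx y hy => (h x hx y hy).trans hκ⟩
  refine ⟨min κ₁ κ₂, lt_min hκ₁ hκ₂, fun φ hφ ν _ _ => ⟨fun hν A hA hper => ?_,
    fun hν A hA hper => ?_⟩⟩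
  · exact h1 φ (hmono (min_le_left _ _) hφ) ν hν A hA hper
  · exact h2 φ (hmono (min_le_right _ _) hφ) ν hν A hA hper

end Pool.Agent.Results.MP_610fe3_an.PeriodicJacobians
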